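import Mathlib
import Pool.Agent.MP_9758ca_gt.Bas.All

/-!
Infinitely many symplectic embeddings of a closed ball into a closed symplectic six-manifold, all
centred at one point and all symplectically isotopic, no two of which are isotopic through
embeddings centred at that point.
-/

open scoped Manifold ContDiff

namespace Pool.Agent.Results.MP_9758ca_gt.BasedInfinite

section

variable (E : Type) [NormedAddCommGroup E] [NormedSpace ℝ E]

/-- A closed (compact, boundaryless, Hausdorff, connected) smooth manifold modelled on `E`. -/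
structure ClosedMfd where
  /-- the underlying set of points -/
  carrier : Type
  [top : TopologicalSpace carrier]
  [atl : ChartedSpace E carrier]
  [mfd : IsManifold 𝓘(ℝ, E) ∞ carrier]
  [haus : T2Space carrier]
  [cpt : CompactSpace carrier]
  [conn : ConnectedSpace carrier]

attribute [instance] ClosedMfd.top ClosedMfd.atl ClosedMfd.mfd ClosedMfd.haus ClosedMfd.cpt
  ClosedMfd.conn

variable {E}

/-- A field of alternating bilinear forms on the tangent spaces. -/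
def TwoForm (M : ClosedMfd E) : Type :=
  ∀ x : M.carrier, (TangentSpace 𝓘(ℝ, E) x) [⋀^Fin 2]→L[ℝ] ℝ

/-- The expression of a two-form in the chart at `p` (pull-back by the inverse chart). -/
noncomputable def formInChart {M : ClosedMfd E} (σ : TwoForm M) (p : M.carrier) (y : E) :
    E [⋀^Fin 2]→L[ℝ] ℝ :=
  (σ ((chartAt E p).symm y)).compContinuousLinearMap
    (mfderiv 𝓘(ℝ, E) 𝓘(ℝ, E) (chartAt E p).symm y)

/-- A symplectic form: smooth and closed in every chart, and nondegenerate. -/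
structure IsSymplectic {M : ClosedMfd E} (σ : TwoForm M) : Prop where
  smooth : ∀ p, ContDiffOn ℝ ∞ (formInChart σ p) (chartAt E p).target
  closed : ∀ p, ∀ y ∈ (chartAt E p).target, extDeriv (formInChart σ p) y = 0
  nondeg : ∀ x (v : TangentSpace 𝓘(ℝ, E) x), (∀ w, σ x ![v, w] = 0) → v = 0

/-- `ψ` restricted to the closed ball of radius `r` is a smooth injective map that pulls `σ` back
to the constant form `om` at every point of the closed ball. -/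
structure IsBallEmb {M : ClosedMfd E} (σ : TwoForm M) (om : E → E → ℝ) (r : ℝ)
    (ψ : E → M.carrier) : Prop where
  smooth : ContMDiffOn 𝓘(ℝ, E) 𝓘(ℝ, E) ∞ ψ (Metric.closedBall 0 r)
  inj : Set.InjOn ψ (Metric.closedBall 0 r)
  pull : ∀ y ∈ Metric.closedBall (0 : E) r, ∀ v w : E,
    σ (ψ y) ![mfderivWithin 𝓘(ℝ, E) 𝓘(ℝ, E) ψ (Metric.closedBall 0 r) y v,
      mfderivWithin 𝓘(ℝ, E) 𝓘(ℝ, E) ψ (Metric.closedBall 0 r) y w] = om v w

/-- `ψ₀` and `ψ₁` are joined by a smooth family, indexed by `[0,1]`, of symplectic embeddings of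
the closed ball of radius `r`. -/
def Isotopic {M : ClosedMfd E} (σ : TwoForm M) (om : E → E → ℝ) (r : ℝ)
    (ψ₀ ψ₁ : E → M.carrier) : Prop :=
  ∃ Ψ : ℝ × E → M.carrier,
    ContMDiffOn (𝓘(ℝ, ℝ).prod 𝓘(ℝ, E)) 𝓘(ℝ, E) ∞ Ψ (Set.Icc 0 1 ×ˢ Metric.closedBall 0 r) ∧
    (∀ t ∈ Set.Icc (0 : ℝ) 1, IsBallEmb σ om r fun y => Ψ (t, y)) ∧
    (∀ y ∈ Metric.closedBall (0 : E) r, Ψ (0, y) = ψ₀ y) ∧
    (∀ y ∈ Metric.closedBall (0 : E) r, Ψ (1, y) = ψ₁ y)

/-- `ψ₀` and `ψ₁` are joined by a smooth family, indexed by `[0,1]`, of symplectic embeddings of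
the closed ball of radius `r` that all send the centre `0` to `p`. -/
def IsotopicAt {M : ClosedMfd E} (σ : TwoForm M) (om : E → E → ℝ) (r : ℝ) (p : M.carrier)
    (ψ₀ ψ₁ : E → M.carrier) : Prop :=
  ∃ Ψ : ℝ × E → M.carrier,
    ContMDiffOn (𝓘(ℝ, ℝ).prod 𝓘(ℝ, E)) 𝓘(ℝ, E) ∞ Ψ (Set.Icc 0 1 ×ˢ Metric.closedBall 0 r) ∧
    (∀ t ∈ Set.Icc (0 : ℝ) 1, IsBallEmb σ om r (fun y => Ψ (t, y)) ∧ Ψ (t, 0) = p) ∧
    (∀ y ∈ Metric.closedBall (0 : E) r, Ψ (0, y) = ψ₀ y) ∧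
    (∀ y ∈ Metric.closedBall (0 : E) r, Ψ (1, y) = ψ₁ y)

end

/-- The standard form `∑ dx_j ∧ dy_j` in the coordinates `(x_1, y_1, x_2, y_2, x_3, y_3)`. -/
def om0 (v w : EuclideanSpace ℝ (Fin 6)) : ℝ :=
  v 0 * w 1 - v 1 * w 0 + (v 2 * w 3 - v 3 * w 2) + (v 4 * w 5 - v 5 * w 4)

theorem result :
    ∃ (M : ClosedMfd (EuclideanSpace ℝ (Fin 6))) (σ : TwoForm M), IsSymplectic σ ∧
      ∃ r : ℝ, 0 < r ∧ ∃ (p : M.carrier) (ψ : ℕ → EuclideanSpace ℝ (Fin 6) → M.carrier),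
        (∀ n, IsBallEmb σ om0 r (ψ n) ∧ ψ n 0 = p) ∧
        (∀ m n, Isotopic σ om0 r (ψ m) (ψ n)) ∧
        ∀ m n, m ≠ n → ¬ IsotopicAt σ om0 r p (ψ m) (ψ n) := by
  obtain ⟨M, σ, hσ, r, hr, p, ψ, h0, h1, hn⟩ := Pool.Agent.MP_9758ca_gt.Bas.final_based
  refine ⟨⟨M.carrier⟩, σ, ⟨hσ.smooth, hσ.closed, hσ.nondeg⟩, r, hr, p, ψ,
    fun n => ⟨⟨(h0 n).1.smooth, (h0 n).1.inj, (h0 n).1.pull⟩, (h0 n).2⟩, fun m n => ?_,
    fun m n hmn => ?_⟩
  · obtain ⟨Ψ, hΨ, ht, e0, e1⟩ := h1 m n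
    exact ⟨Ψ, hΨ, fun t h => ⟨(ht t h).smooth, (ht t h).inj, (ht t h).pull⟩, e0, e1⟩
  · rintro ⟨Ψ, hΨ, ht, e0, e1⟩
    exact hn m n hmn ⟨Ψ, hΨ, fun t h =>
      ⟨⟨(ht t h).1.smooth, (ht t h).1.inj, (ht t h).1.pull⟩, (ht t h).2⟩, e0, e1⟩

end Pool.Agent.Results.MP_9758ca_gt.BasedInfinite
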