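import Mathlib
import Pool.Agent.MP_9758ca_gt.PA
import Pool.Agent.MP_9758ca_gt.PM
import Pool.Agent.MP_9758ca_gt.QE
import Pool.Agent.MP_9758ca_gt.PL
import Pool.Agent.MP_9758ca_gt.PE
import Pool.Agent.MP_9758ca_gt.PF
import Pool.Agent.MP_9758ca_gt.PG
import Pool.Agent.MP_9758ca_gt.Tree
import Pool.Agent.MP_9758ca_gt.PI
import Pool.Agent.MP_9758ca_gt.PJ
import Pool.Agent.MP_9758ca_gt.PK
import Pool.Agent.MP_9758ca_gt.V0
import Pool.Agent.MP_9758ca_gt.Eq
import Pool.Agent.MP_9758ca_gt.Schl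
import Pool.Agent.MP_9758ca_gt.Gtame
import Pool.Agent.MP_9758ca_gt.Gn
import Pool.Agent.MP_9758ca_gt.Model
import Pool.Agent.MP_9758ca_gt.QD
import Pool.Agent.MP_9758ca_gt.Runge
import Pool.Agent.MP_9758ca_gt.QF
import Pool.Agent.MP_9758ca_gt.QB

/-!
Two symplectic embeddings of a closed ball into a closed symplectic six-manifold that are not
symplectically isotopic.
-/

open scoped Manifold ContDiff

open Pool.Agent.MP_9758ca_gt in
/-- Assembly of all modules. -/
theorem Pool.Agent.MP_9758ca_gt.final_all : Pool.Agent.MP_9758ca_gt.Final := by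
  have cau2 := cau2_of cau1
  have schl := schl_of cau1 cau2
  have apri := apri_of schl (reg_of schl)
  have stokes := stokes_of mob
  have neck := neck_of stokes apri
  have small := small_of apri neck (rem_of neck cau1 cau2 apri) mob
  have loc := loc_of apri small
  have top := top_of loc (tree_of loc small mob) small mob
  have fib := fib_of (hw_of cau1)
  have cover := cover_of (cover1_of fib) small mob
  have pair := pair_of fib
  have ss := ss_of riesz
  have std1 := std1_of cau1 cau2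
  have std2 := std2_of std1 cpt riesz
  have runge := runge_of cau1 cau2
  have bundle := bundle_of line ss
  have chern := chern_of stokes frame
  have chart := chart_of nem apri
  have eq := eq_of nem
  have strat := strat_of frame chart eq std2 (surj_of std2 runge riesz pair) riesz ss cpt
  have gen := gen_of pert strat label (mark_of mob frame pair) (comb_of cover bundle chern frame)
  have mainM := mainM_of (thick_of (parity_of eu) riesz)
    (model_of frame chart eq std2 riesz runge) chart frame stokes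
  have mainW := double_of (mainS_of gen (mainK_of top bundle chern mob cpt) mainM)
  have gcomp := gcomp_of go gn gprim ambient
  have gcut := gcut_of gcomp
  have deg := deg_of (holline_of line std1 stokes) gcomp slice
  have e1 := expl1_of gcomp
  have e2 := expl2_of e1 stokes
  have cls := class_of deg slice e1 e2 mob gcomp
  have conf := conf_of slice deg cls (balluse_of (mono_of stokes) mob) gball gcomp mob
  have hyp := hyp_of conf cls e1 (explF_of gcomp e1 frame) e2 (expl3_of gcomp e1 holpush) gcut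
    gcpt frame gball
  exact final_of (gtame_of gcomp gcpt ambient) gcomp gcpt gball
    (noiso_of mainW hyp ambient gcomp gcpt gball tamefam (v0_of ss gcut) (path_of ss))
    (quot_of manifold)

namespace Pool.Agent.Results.MP_9758ca_gt.NonIsotopic

section

variable (E : Type) [NormedAddCommGroup E] [NormedSpace ℝ E]

/-- A closed (compact, boundaryless, Hausdorff, connected) smooth manifold modelled on `E`. -/
structure ClosedMfd where
  /-- the underlying set of points -/
  carrier : Type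
  [top : TopologicalSpace carrier]
  [atl : ChartedSpace E carrier]
  [mfd : IsManifold 𝓘(ℝ, E) ∞ carrier]
  [haus : T2Space carrier]
  [cpt : CompactSpace carrier]
  [conn : ConnectedSpace carrier]

attribute [instance] ClosedMfd.top ClosedMfd.atl ClosedMfd.mfd ClosedMfd.haus ClosedMfd.cpt
  ClosedMfd.conn

variable {E}

/-- A field of alternating bilinear forms on the tangent spaces. -/
def TwoForm (M : ClosedMfd E) : Type :=
  ∀ x : M.carrier, (TangentSpace 𝓘(ℝ, E) x) [⋀^Fin 2]→L[ℝ] ℝ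

/-- The expression of a two-form in the chart at `p` (pull-back by the inverse chart). -/
noncomputable def formInChart {M : ClosedMfd E} (σ : TwoForm M) (p : M.carrier) (y : E) :
    E [⋀^Fin 2]→L[ℝ] ℝ :=
  (σ ((chartAt E p).symm y)).compContinuousLinearMap
    (mfderiv 𝓘(ℝ, E) 𝓘(ℝ, E) (chartAt E p).symm y)

/-- A symplectic form: smooth and closed in every chart, and nondegenerate. -/
structure IsSymplectic {M : ClosedMfd E} (σ : TwoForm M) : Prop where
  smooth : ∀ p, ContDiffOn ℝ ∞ (formInChart σ p) (chartAt E p).target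
  closed : ∀ p, ∀ y ∈ (chartAt E p).target, extDeriv (formInChart σ p) y = 0
  nondeg : ∀ x (v : TangentSpace 𝓘(ℝ, E) x), (∀ w, σ x ![v, w] = 0) → v = 0

/-- `ψ` restricted to the closed ball of radius `r` is a smooth injective map that pulls `σ` back
to the constant form `om` at every point of the closed ball. -/
structure IsBallEmb {M : ClosedMfd E} (σ : TwoForm M) (om : E → E → ℝ) (r : ℝ)
    (ψ : E → M.carrier) : Prop where
  smooth : ContMDiffOn 𝓘(ℝ, E) 𝓘(ℝ, E) ∞ ψ (Metric.closedBall 0 r)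
  inj : Set.InjOn ψ (Metric.closedBall 0 r)
  pull : ∀ y ∈ Metric.closedBall (0 : E) r, ∀ v w : E,
    σ (ψ y) ![mfderivWithin 𝓘(ℝ, E) 𝓘(ℝ, E) ψ (Metric.closedBall 0 r) y v,
      mfderivWithin 𝓘(ℝ, E) 𝓘(ℝ, E) ψ (Metric.closedBall 0 r) y w] = om v w

/-- `ψ₀` and `ψ₁` are joined by a smooth family, indexed by `[0,1]`, of symplectic embeddings of
the closed ball of radius `r`. -/
def Isotopic {M : ClosedMfd E} (σ : TwoForm M) (om : E → E → ℝ) (r : ℝ)
    (ψ₀ ψ₁ : E → M.carrier) : Prop :=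
  ∃ Ψ : ℝ × E → M.carrier,
    ContMDiffOn (𝓘(ℝ, ℝ).prod 𝓘(ℝ, E)) 𝓘(ℝ, E) ∞ Ψ (Set.Icc 0 1 ×ˢ Metric.closedBall 0 r) ∧
    (∀ t ∈ Set.Icc (0 : ℝ) 1, IsBallEmb σ om r fun y => Ψ (t, y)) ∧
    (∀ y ∈ Metric.closedBall (0 : E) r, Ψ (0, y) = ψ₀ y) ∧
    (∀ y ∈ Metric.closedBall (0 : E) r, Ψ (1, y) = ψ₁ y)

end

/-- The standard form `∑ dx_j ∧ dy_j` in the coordinates `(x_1, y_1, x_2, y_2, x_3, y_3)`. -/
def om0 (v w : EuclideanSpace ℝ (Fin 6)) : ℝ :=
  v 0 * w 1 - v 1 * w 0 + (v 2 * w 3 - v 3 * w 2) + (v 4 * w 5 - v 5 * w 4)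

theorem result :
    ∃ (M : ClosedMfd (EuclideanSpace ℝ (Fin 6))) (σ : TwoForm M), IsSymplectic σ ∧
      ∃ r : ℝ, 0 < r ∧ ∃ ψ₀ ψ₁ : EuclideanSpace ℝ (Fin 6) → M.carrier,
        IsBallEmb σ om0 r ψ₀ ∧ IsBallEmb σ om0 r ψ₁ ∧ ¬ Isotopic σ om0 r ψ₀ ψ₁ := by
  obtain ⟨M, σ, hσ, r, hr, ψ₀, ψ₁, h0, h1, hn⟩ := Pool.Agent.MP_9758ca_gt.final_all
  refine ⟨⟨M.carrier⟩, σ, ⟨hσ.smooth, hσ.closed, hσ.nondeg⟩, r, hr, ψ₀, ψ₁,
    ⟨h0.smooth, h0.inj, h0.pull⟩, ⟨h1.smooth, h1.inj, h1.pull⟩, ?_⟩
  rintro ⟨Ψ, hΨ, ht, e0, e1⟩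
  exact hn ⟨Ψ, hΨ, fun t h => ⟨(ht t h).smooth, (ht t h).inj, (ht t h).pull⟩, e0, e1⟩

end Pool.Agent.Results.MP_9758ca_gt.NonIsotopic
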